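import Pool.Agent.Helper15.T8.Stmts

set_option autoImplicit false

/-!
MP_2f9829_co, T8: module CNV (sets of edges and simple graphs).
-/

open Finset

namespace Pool.Agent.Helper25.T8

open Pool.Agent.Helper15 Pool.Agent.Helper15.T8

/-- the set of edges -/
noncomputable def ef {n : ℕ} (G : SimpleGraph (Fin n)) : Finset (Sym2 (Fin n)) :=
  (Set.toFinite G.edgeSet).toFinset

theorem mem_ef {n : ℕ} (G : SimpleGraph (Fin n)) (e : Sym2 (Fin n)) : e ∈ ef G ↔ e ∈ G.edgeSet :=
  Set.Finite.mem_toFinset _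

theorem coe_ef {n : ℕ} (G : SimpleGraph (Fin n)) : (ef G : Set (Sym2 (Fin n))) = G.edgeSet :=
  Set.Finite.coe_toFinset _

theorem dg_ef {n : ℕ} (G : SimpleGraph (Fin n)) (v : Fin n) :
    dg (ef G) v = Set.ncard (G.neighborSet v) := by
  have : DecidableRel G.Adj := Classical.decRel _
  have h1 : ef G = G.edgeFinset := by
    ext e
    rw [mem_ef, SimpleGraph.mem_edgeFinset]
  rw [Set.ncard_eq_toFinset_card']
  show _ = (G.neighborFinset v).card
  rw [SimpleGraph.card_neighborFinset_eq_degree, ← SimpleGraph.card_incidenceFinset_eq_degree,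
    SimpleGraph.incidenceFinset_eq_filter, h1]
  rfl

/-- CNV. -/
theorem st_CNV : ST_CNV := by
  intro n P Q
  have hdg : ∀ G : SimpleGraph (Fin n), dg (ef G) = fun v => Set.ncard (G.neighborSet v) :=
    fun G => funext (dg_ef G)
  refine Set.ncard_congr (fun G _ => ef G) ?_ ?_ ?_
  · intro G hG
    refine ⟨fun e he => ?_, ?_, ?_⟩
    · rw [mem_ef] at he
      exact G.not_isDiag_of_mem_edgeSet he
    · rw [hdg]
      exact hG.1
    · rw [coe_ef, SimpleGraph.fromEdgeSet_edgeSet]
      exact hG.2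
  · intro G G' _ _ h
    have h1 := congrArg (fun E : Finset (Sym2 (Fin n)) => (E : Set (Sym2 (Fin n)))) h
    simp only [coe_ef] at h1
    exact SimpleGraph.edgeSet_injective h1
  · intro E hE
    have h1 : ef (SimpleGraph.fromEdgeSet (E : Set (Sym2 (Fin n)))) = E := by
      ext e
      rw [mem_ef, SimpleGraph.edgeSet_fromEdgeSet]
      constructor
      · intro h
        exact h.1
      · intro h
        exact ⟨h, hE.1 e h⟩
    refine ⟨SimpleGraph.fromEdgeSet (E : Set (Sym2 (Fin n))), ⟨?_, hE.2.2⟩, h1⟩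
    have h2 := hdg (SimpleGraph.fromEdgeSet (E : Set (Sym2 (Fin n))))
    rw [h1] at h2
    rw [← h2]
    exact hE.2.1

end Pool.Agent.Helper25.T8
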