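import Pool.Agent.Helper15.T8.Stmts

set_option autoImplicit false

/-!
MP_2f9829_co, T8: module MON (choosability of subgraphs).
-/

open Finset

namespace Pool.Agent.Helper25.T8

open Pool.Agent.Helper15 Pool.Agent.Helper15.T8

/-- MON. -/
theorem st_MON : ST_MON := by
  classical
  intro V V' d G G' ι hι hadj hG' L hL
  have hmem : ∀ e : G.edgeSet, Sym2.map ι (e : Sym2 V) ∈ G'.edgeSet := by
    rintro ⟨e, he⟩
    induction e using Sym2.ind with
    | _ u v =>
      rw [SimpleGraph.mem_edgeSet] at he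
      show Sym2.map ι s(u, v) ∈ G'.edgeSet
      rw [Sym2.map_mk, SimpleGraph.mem_edgeSet]
      exact hadj u v he
  obtain ⟨φ, hφ⟩ : ∃ φ : G.edgeSet → G'.edgeSet, ∀ e, ((φ e : G'.edgeSet) : Sym2 V') =
      Sym2.map ι (e : Sym2 V) := ⟨fun e => ⟨_, hmem e⟩, fun _ => rfl⟩
  have hinj : Function.Injective φ := by
    intro e e' h
    apply Subtype.ext
    apply Sym2.map.injective hι
    rw [← hφ, ← hφ, h]
  obtain ⟨L', hL'⟩ : ∃ L' : G'.edgeSet → Finset ℕ,
      (∀ e, L' (φ e) = L e) ∧ ∀ e', d ≤ (L' e').card := by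
    refine ⟨fun e' => if h : ∃ e, φ e = e' then L h.choose else range d, ?_, ?_⟩
    · intro e
      have h : ∃ e₁, φ e₁ = φ e := ⟨e, rfl⟩
      show (if h : ∃ e₁, φ e₁ = φ e then L h.choose else range d) = L e
      rw [dif_pos h, hinj h.choose_spec]
    · intro e'
      show d ≤ (if h : ∃ e, φ e = e' then L h.choose else range d).card
      split_ifs with h
      · exact hL _
      · rw [card_range]
  obtain ⟨f, hf1, hf2⟩ := hG' L' hL'.2
  refine ⟨fun e => f (φ e), fun e => ?_, fun e e' h => ?_⟩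
  · rw [← hL'.1 e]
    exact hf1 _
  · apply hf2
    rw [SimpleGraph.lineGraph_adj_iff_exists] at h ⊢
    obtain ⟨h1, v, h2, h3⟩ := h
    refine ⟨fun h4 => h1 (hinj h4), ι v, ?_, ?_⟩
    · rw [hφ, Sym2.mem_map]
      exact ⟨v, h2, rfl⟩
    · rw [hφ, Sym2.mem_map]
      exact ⟨v, h3, rfl⟩

end Pool.Agent.Helper25.T8
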